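import Pool.Agent.KS6_79.GT.Com

/-!
# Colourings with few colours on every `K_k`: threshold, gaps and typical structure

`F r k s G` is the number of `r`-edge-colourings of `G` in which no `K_k` carries `s` or more colours.
For all `k ≥ 3` and `3 ≤ s ≤ C(k, 2)` the theorem gives Property A with the explicit threshold, with a
gap: below the threshold every graph other than `K_n` has at most `1 / 2 + exp (- γ n)` times as many
colourings as `K_n`, above it every graph other than the Turan graph has at most `1 / r` times as many,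
and exponentially few if it is not `(k-1)`-colourable. For all `r ≥ s` and all graphs, all but an
exponentially small part (of the maximum) of the colourings have one of the optimal structures, and the
growth rate of the maximum is the one of the best structure.

The library has Property A itself (`S09889`), with a threshold that is not given, and without any
bound for the other graphs or for the structure of the colourings.
-/

set_option autoImplicit false

namespace Pool.Agent.Results.MP_86b484_co.GapsAndStructure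

open Pool.Agent.KS6_79.RK Pool.Agent.KS6_79.GT
open Filter

/-- No copy of `K_k` in `G` has edges of `s` or more colours. -/
def Good {n r : ℕ} (k s : ℕ) (G : SimpleGraph (Fin n)) (c : G.edgeSet → Fin r) : Prop :=
  ∀ S : Finset (Fin n), G.IsNClique k S →
    Set.ncard {i : Fin r | ∃ e : G.edgeSet, (∀ v ∈ (e : Sym2 (Fin n)), v ∈ S) ∧ c e = i} < s

/-- The number of the `r`-edge-colourings of `G` in which no `K_k` has `s` or more colours. -/
noncomputable def F {n : ℕ} (r k s : ℕ) (G : SimpleGraph (Fin n)) : ℕ :=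
  Nat.card {c : G.edgeSet → Fin r // Good k s G c}

/-- The largest number of such colourings of a graph with `n` vertices. -/
noncomputable def maxF (r k s n : ℕ) : ℕ := ⨆ G : SimpleGraph (Fin n), F r k s G

/-- `G` is extremal. -/
def Extremal {n : ℕ} (r k s : ℕ) (G : SimpleGraph (Fin n)) : Prop :=
  ∀ H : SimpleGraph (Fin n), F r k s H ≤ F r k s G

/-- The condition for the complete graph to be extremal: `r < s`, or the `s - 1` colours of the
complete graph beat the Turan graph, or a structure with `p` classes and `c ≥ 2` colours inside the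
classes does not lose against the Turan graph. -/
def CompleteWins (k s r : ℕ) : Prop :=
  r < s ∨ r ^ (k - 2) < (s - 1) ^ (k - 1) ∨
    ∃ p c, k ≤ 2 * p ∧ p + c + (k.choose 2 + 1 - s) = k ∧ 2 ≤ c ∧ r ^ (k - 1 - p) ≤ c ^ (k - 1)

/-- The number of colours allowed inside the classes of a structure with `p` classes. -/
def inner (k s p : ℕ) : ℕ := if p = 1 then s - 1 else k - p - (k.choose 2 + 1 - s)

/-- The numbers of classes of the structures. -/
def Admissible (k s p : ℕ) : Prop :=
  1 ≤ p ∧ p ≤ k - 1 ∧ (p = 1 ∨ p = k - 1 ∨ (k ≤ 2 * p ∧ 2 ≤ inner k s p))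

/-- The loss of the structure with `p` classes. For `p = k - 1` no colour is allowed inside the
classes, the convention `log 0 = 0` gives the value `log r / (k - 1)`. -/
noncomputable def loss (k s r p : ℕ) : ℝ := (Real.log r - Real.log (inner k s p : ℕ)) / p

/-- The structures with the least loss. -/
def Optimal (k s r p : ℕ) : Prop :=
  Admissible k s p ∧ ∀ q, Admissible k s q → loss k s r p ≤ loss k s r q

/-- The colouring has one of the optimal structures: the vertices can be divided into `p` classes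
such that the edges inside the classes use the `inner k s p` colours of a set `A` only. -/
def Structured {n r : ℕ} (k s : ℕ) (G : SimpleGraph (Fin n)) (c : G.edgeSet → Fin r) : Prop :=
  ∃ (p : ℕ) (A : Finset (Fin r)) (κ : Fin n → Fin p), Optimal k s r p ∧ A.card = inner k s p ∧
    ∀ (x y : Fin n) (h : G.Adj x y), κ x = κ y → c ⟨s(x, y), h⟩ ∈ A

lemma F_eq {n : ℕ} (r k s : ℕ) (G : SimpleGraph (Fin n)) :
    Pool.Agent.TH477.PA.F r k s G = F r k s G := rfl

lemma maxF_eq (r k s n : ℕ) : Pool.Agent.TH477.PA.Fmax r k s n = maxF r k s n := rfl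

lemma inner_eq (k s p : ℕ) (hs : 3 ≤ s) (hsk : s ≤ k.choose 2) :
    Pool.Agent.TH477.PA.ct k (k.choose 2 + 1 - s) p = inner k s p := by
  unfold Pool.Agent.TH477.PA.ct inner
  by_cases h : p = 1
  · rw [if_pos h, if_pos h]
    omega
  · rw [if_neg h, if_neg h]

lemma adm_iff (k s p : ℕ) (hk : 3 ≤ k) (hs : 3 ≤ s) (hsk : s ≤ k.choose 2) :
    p ∈ Pool.Agent.TH480.J677.Adm k (k.choose 2 + 1 - s) ↔ Admissible k s p := by
  rw [Pool.Agent.TH480.J677.mem_Adm, inner_eq k s p hs hsk]
  unfold Admissible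
  constructor
  · rintro ⟨h1, h2, h3 | ⟨h3, h4 | h4⟩⟩
    · exact ⟨h2, by omega, Or.inl h3⟩
    · exact ⟨h2, by omega, Or.inr (Or.inl h4)⟩
    · exact ⟨h2, by omega, Or.inr (Or.inr ⟨h3, h4⟩)⟩
  · rintro ⟨h1, h2, h3 | h3 | ⟨h3, h4⟩⟩
    · exact ⟨by omega, h1, Or.inl h3⟩
    · exact ⟨by omega, h1, Or.inr ⟨by omega, Or.inl h3⟩⟩
    · exact ⟨by omega, h1, Or.inr ⟨h3, Or.inr h4⟩⟩

lemma w_eq (k s r p : ℕ) (hs : 3 ≤ s) (hsk : s ≤ k.choose 2) :
    Pool.Agent.TH480.J677.w k (k.choose 2 + 1 - s) r p = loss k s r p := by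
  unfold Pool.Agent.TH480.J677.w loss
  rw [inner_eq k s p hs hsk]

/-- the optimal structures in terms of the library -/
lemma exists_opt (k s r : ℕ) (hk : 3 ≤ k) (hs : 3 ≤ s) (hsk : s ≤ k.choose 2) (hr : s ≤ r) :
    ∃ (ℓ : ℝ) (p0 : ℕ), Pool.Agent.TH477.PA.Opt k (k.choose 2 + 1 - s) r ℓ ∧
      Pool.Agent.TH477.PA.IsType k (k.choose 2 + 1 - s) r ℓ p0 ∧
      (∀ p, Pool.Agent.TH477.PA.IsType k (k.choose 2 + 1 - s) r ℓ p ↔ Optimal k s r p) ∧
      ∀ p, Optimal k s r p → loss k s r p = ℓ := by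
  obtain ⟨p0, hp0, hmin⟩ := Pool.Agent.TH480.J677.exists_min (D := k.choose 2 + 1 - s) (r := r) hk
  have hD1 : 1 ≤ k.choose 2 + 1 - s := by omega
  have hrD : k.choose 2 < r + (k.choose 2 + 1 - s) := by omega
  refine ⟨Pool.Agent.TH480.J677.w k (k.choose 2 + 1 - s) r p0, p0,
    Pool.Agent.TH480.J677.opt_of hk hD1 (by omega) hrD
      (Pool.Agent.TH480.J677.w_pos hk hD1 hrD (by omega) hp0) hmin,
    Pool.Agent.TH480.J677.isType_iff.2 ⟨hp0, rfl⟩, ?_, ?_⟩
  · intro p
    rw [Pool.Agent.TH480.J677.isType_iff, adm_iff k s p hk hs hsk]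
    constructor
    · rintro ⟨h1, h2⟩
      refine ⟨h1, fun q hq => ?_⟩
      rw [← w_eq k s r p hs hsk, ← w_eq k s r q hs hsk, h2]
      exact hmin q ((adm_iff k s q hk hs hsk).2 hq)
    · rintro ⟨h1, h2⟩
      refine ⟨h1, le_antisymm ?_ (hmin p ((adm_iff k s p hk hs hsk).2 h1))⟩
      rw [w_eq k s r p hs hsk, w_eq k s r p0 hs hsk]
      exact h2 p0 ((adm_iff k s p0 hk hs hsk).1 hp0)
  · rintro p ⟨h1, h2⟩
    rw [w_eq k s r p0 hs hsk]
    refine le_antisymm (h2 p0 ((adm_iff k s p0 hk hs hsk).1 hp0)) ?_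
    rw [← w_eq k s r p hs hsk, ← w_eq k s r p0 hs hsk]
    exact hmin p ((adm_iff k s p hk hs hsk).2 h1)

/-- a unique graph with the largest number -/
lemma unique_of_lt {n k s r : ℕ} (P : SimpleGraph (Fin n) → Prop) (G0 : SimpleGraph (Fin n))
    (hP : ∀ G, P G → F r k s G = F r k s G0) (h : ∀ G, ¬ P G → F r k s G < F r k s G0)
    (G : SimpleGraph (Fin n)) : Extremal r k s G ↔ P G := by
  constructor
  · intro h1
    by_contra h2
    exact absurd (h1 G0) (not_le.2 (h G h2))
  · intro h1 H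
    rw [hP G h1]
    by_cases h2 : P H
    · exact (hP H h2).le
    · exact (h H h2).le

lemma small_colours (k s r n : ℕ) (hrs : r < s) (G : SimpleGraph (Fin n)) :
    F r k s G = r ^ Nat.card G.edgeSet := by
  rw [← F_eq]
  exact Pool.Agent.TH511.J678.F_small r k s n hrs G

lemma F_pos (k s r n : ℕ) (hk : 3 ≤ k) (hr : 2 ≤ r) (hs : 3 ≤ s) (G : SimpleGraph (Fin n)) :
    0 < F r k s G := by
  have : Nonempty {c : G.edgeSet → Fin r // Good k s G c} := by
    refine ⟨⟨fun _ => ⟨0, by omega⟩, ?_⟩⟩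
    intro S _
    have h2 : {i : Fin r | ∃ e : G.edgeSet, (∀ v ∈ (e : Sym2 (Fin n)), v ∈ S) ∧
        (⟨0, by omega⟩ : Fin r) = i} ⊆ {⟨0, by omega⟩} := by
      rintro i ⟨e, -, rfl⟩
      rfl
    have h3 := Set.ncard_le_ncard h2 (Set.toFinite _)
    rw [Set.ncard_singleton] at h3
    exact lt_of_le_of_lt h3 (by omega)
  exact Nat.card_pos

/-- **Property A with explicit threshold, gaps and typical structure.** Let `k ≥ 3` and
`3 ≤ s ≤ C(k, 2)`.

(1) There is `rs` such that `r < rs` if and only if `CompleteWins k s r`, and for every `r ≥ 2`: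

* if `r < rs`, there is `γ > 0` such that for all large `n` every graph `G` with `n` vertices which is
  not complete has `F(G) ≤ (1 / 2 + exp (- γ n)) F(K_n)`;
* if `r ≥ rs`, there is `γ > 0` such that for all large `n` the Turan graph `T = T_{k-1}(n)` has
  `r ^ e(T)` colourings, every graph `G` with `n` vertices which is not `(k-1)`-colourable has
  `F(G) ≤ exp (- γ n) F(T)`, and every `G` not isomorphic to `T` has `r F(G) ≤ F(T)`;
* for all large `n`, `G` is extremal if and only if `r < rs` and `G = K_n`, or `r ≥ rs` and `G` is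
  isomorphic to `T_{k-1}(n)`.

(2) For every `r ≥ s` there is an optimal number of classes, and there is `γ > 0` such that for all
large `n` and all graphs `G` with `n` vertices at most `exp (- γ n) maxF(n)` of the good colourings
of `G` do not have one of the optimal structures; and for the optimal `p`
`log maxF(n) / n ^ 2` tends to `(log r - loss p) / 2`. -/
theorem result (k s : ℕ) (hk : 3 ≤ k) (hs : 3 ≤ s) (hsk : s ≤ k.choose 2) :
    (∃ rs : ℕ, (∀ r, r < rs ↔ CompleteWins k s r) ∧ ∀ r, 2 ≤ r →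
      (r < rs → ∃ γ : ℝ, 0 < γ ∧ ∃ n0 : ℕ, ∀ n, n0 ≤ n → ∀ G : SimpleGraph (Fin n), G ≠ ⊤ →
        (F r k s G : ℝ) ≤ (1 / 2 + Real.exp (-(γ * n))) * F r k s (⊤ : SimpleGraph (Fin n))) ∧
      (rs ≤ r → ∃ γ : ℝ, 0 < γ ∧ ∃ n0 : ℕ, ∀ n, n0 ≤ n →
        F r k s (SimpleGraph.turanGraph n (k - 1)) =
          r ^ Nat.card (SimpleGraph.turanGraph n (k - 1)).edgeSet ∧
        ∀ G : SimpleGraph (Fin n),
          (¬ G.Colorable (k - 1) → (F r k s G : ℝ) ≤
            Real.exp (-(γ * n)) * F r k s (SimpleGraph.turanGraph n (k - 1))) ∧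
          (¬ Nonempty (G ≃g SimpleGraph.turanGraph n (k - 1)) →
            r * F r k s G ≤ F r k s (SimpleGraph.turanGraph n (k - 1)))) ∧
      (∃ n0 : ℕ, ∀ n, n0 ≤ n → ∀ G : SimpleGraph (Fin n),
        (Extremal r k s G ↔ (r < rs ∧ G = ⊤) ∨
          (rs ≤ r ∧ Nonempty (G ≃g SimpleGraph.turanGraph n (k - 1)))))) ∧
    (∀ r, s ≤ r → (∃ p, Optimal k s r p) ∧
      (∃ γ : ℝ, 0 < γ ∧ ∃ n0 : ℕ, ∀ n, n0 ≤ n → ∀ G : SimpleGraph (Fin n),
        (Nat.card {c : G.edgeSet → Fin r // Good k s G c ∧ ¬ Structured k s G c} : ℝ) ≤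
          Real.exp (-(γ * n)) * maxF r k s n) ∧
      ∀ p, Optimal k s r p → Tendsto (fun n : ℕ => Real.log (maxF r k s n) / (n : ℝ) ^ 2) atTop
        (nhds ((Real.log r - loss k s r p) / 2))) := by
  classical
  constructor
  · have hex := Pool.Agent.TH480.J677.exists_not_KW hk hsk
    have hrs : ∀ r, r < Nat.find hex ↔ Pool.Agent.TH480.J677.KW k s r := by
      intro r
      constructor
      · intro hr
        by_contra h
        exact Nat.find_min hex hr h
      · intro h
        by_contra hr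
        exact Nat.find_spec hex (Pool.Agent.TH480.J677.KW_mono h (not_lt.1 hr))
    obtain ⟨rs, hrsd⟩ : ∃ rs, rs = Nat.find hex := ⟨_, rfl⟩
    rw [← hrsd] at hrs
    have hssr : ∀ r, r < s → r < rs := fun r hr => (hrs r).2 (Or.inl hr)
    refine ⟨rs, hrs, fun r hr2 => ?_⟩
    have PK : r < rs → ∃ γ : ℝ, 0 < γ ∧ ∃ n0 : ℕ, ∀ n, n0 ≤ n → ∀ G : SimpleGraph (Fin n),
        G ≠ ⊤ →
        (F r k s G : ℝ) ≤ (1 / 2 + Real.exp (-(γ * n))) * F r k s (⊤ : SimpleGraph (Fin n)) := by
      intro hr
      rcases Nat.lt_or_ge r s with h | h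
      · refine ⟨1, one_pos, 0, fun n _ G hG => ?_⟩
        rw [small_colours k s r n h, small_colours k s r n h, card_top]
        have h1 : 2 * r ^ Nat.card G.edgeSet ≤ r ^ n.choose 2 := by
          calc 2 * r ^ Nat.card G.edgeSet ≤ r * r ^ Nat.card G.edgeSet :=
                Nat.mul_le_mul_right _ hr2
            _ = r ^ (Nat.card G.edgeSet + 1) := (pow_succ' _ _).symm
            _ ≤ _ := Nat.pow_le_pow_right (by omega) (card_lt_top G hG)
        have h2 : (2 : ℝ) * ((r ^ Nat.card G.edgeSet : ℕ) : ℝ) ≤ ((r ^ n.choose 2 : ℕ) : ℝ) := by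
          exact_mod_cast h1
        have h3 : (0 : ℝ) ≤ Real.exp (-(1 * (n : ℝ))) * ((r ^ n.choose 2 : ℕ) : ℝ) :=
          mul_nonneg (Real.exp_pos _).le (Nat.cast_nonneg _)
        rw [add_mul]
        linarith
      · obtain ⟨γ, hγ, n0, H⟩ := main_K hk hs hsk h ((hrs r).1 hr)
        exact ⟨γ, hγ, n0, fun n hn G hG => (H n hn).2 G hG⟩
    have PT : rs ≤ r → ∃ γ : ℝ, 0 < γ ∧ ∃ n0 : ℕ, ∀ n, n0 ≤ n →
        F r k s (SimpleGraph.turanGraph n (k - 1)) =
          r ^ Nat.card (SimpleGraph.turanGraph n (k - 1)).edgeSet ∧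
        ∀ G : SimpleGraph (Fin n),
          (¬ G.Colorable (k - 1) → (F r k s G : ℝ) ≤
            Real.exp (-(γ * n)) * F r k s (SimpleGraph.turanGraph n (k - 1))) ∧
          (¬ Nonempty (G ≃g SimpleGraph.turanGraph n (k - 1)) →
            r * F r k s G ≤ F r k s (SimpleGraph.turanGraph n (k - 1))) := by
      intro hr
      have h : s ≤ r := by
        by_contra h
        have := hssr r (by omega)
        omega
      obtain ⟨γ, hγ, n0, H⟩ := main_T hk hs hsk h (fun hKW => by
        have := (hrs r).2 hKW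
        omega)
      refine ⟨γ, hγ, n0, fun n hn => ⟨?_, fun G => H n hn G⟩⟩
      exact Pool.Agent.TH511.J655.J15_turan_value k s r n hk
    refine ⟨PK, PT, ?_⟩
    rcases Nat.lt_or_ge r rs with hr | hr
    · obtain ⟨γ, hγ, n0, H⟩ := PK hr
      obtain ⟨n1, H1⟩ := small_exp 4 γ hγ
      refine ⟨max n0 n1, fun n hn G => ?_⟩
      rw [unique_of_lt (fun G => G = ⊤) ⊤ (fun G h => by rw [h]) ?_ G]
      · constructor
        · exact fun h => Or.inl ⟨hr, h⟩
        · rintro (h | h)
          · exact h.2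
          · exact absurd h.1 (by omega)
      · intro G hG
        have h1 := H n ((le_max_left _ _).trans hn) G hG
        have h2 := H1 n ((le_max_right _ _).trans hn)
        have h3 : (0 : ℝ) < F r k s (⊤ : SimpleGraph (Fin n)) := by
          exact_mod_cast F_pos k s r n hk hr2 hs _
        have h4 : (F r k s G : ℝ) < F r k s (⊤ : SimpleGraph (Fin n)) := by nlinarith
        exact_mod_cast h4
    · obtain ⟨γ, hγ, n0, H⟩ := PT hr
      refine ⟨n0, fun n hn G => ?_⟩
      rw [unique_of_lt (fun G => Nonempty (G ≃g SimpleGraph.turanGraph n (k - 1)))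
        (SimpleGraph.turanGraph n (k - 1)) ?_ ?_ G]
      · constructor
        · exact fun h => Or.inr ⟨hr, h⟩
        · rintro (h | h)
          · exact absurd h.1 (by omega)
          · exact h.2
      · intro G hG
        have h1 := Pool.Agent.TH511.J678.F_turan r k s hk hG
        rw [(H n hn).1, ← h1]
        rfl
      · intro G h
        have h1 := ((H n hn).2 G).2 h
        have h2 := F_pos k s r n hk hr2 hs (SimpleGraph.turanGraph n (k - 1))
        rcases Nat.lt_or_ge (F r k s G) (F r k s (SimpleGraph.turanGraph n (k - 1))) with h3 | h3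
        · exact h3
        · exfalso
          have h4 := Nat.mul_le_mul hr2 h3
          omega
  · intro r hr
    obtain ⟨ℓ, p0, hO, hp0, hiff, hloss⟩ := exists_opt k s r hk hs hsk hr
    have hDs : k.choose 2 + 1 - (k.choose 2 + 1 - s) = s := by omega
    refine ⟨⟨p0, (hiff p0).1 hp0⟩, ?_, fun p hp => ?_⟩
    · obtain ⟨γ, hγ, n0, H⟩ := typC k _ r ℓ hO ⟨p0, hp0⟩
      rw [hDs] at H
      refine ⟨γ, hγ, n0, fun n hn G => le_trans ?_ (H n hn G)⟩
      have h1 : Nat.card {c : G.edgeSet → Fin r // Good k s G c ∧ ¬ Structured k s G c} ≤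
          Nat.card {c : G.edgeSet → Fin r // GoodC k s G c ∧
            ¬ ∃ (p : ℕ) (A : Finset (Fin r)), Pool.Agent.TH477.PA.IsType k
              (k.choose 2 + 1 - s) r ℓ p ∧
              A.card = Pool.Agent.TH477.PA.ct k (k.choose 2 + 1 - s) p ∧ PerfC G p A c} := by
        apply card_sub_le
        rintro c ⟨h1, h2⟩
        refine ⟨h1, ?_⟩
        rintro ⟨p, A, h3, h4, κ, hκ, h5⟩
        apply h2
        rw [inner_eq k s p hs hsk] at h4
        refine ⟨p, A, fun x => ⟨κ x, hκ x⟩, (hiff p).1 h3, h4, fun x y h h6 => ?_⟩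
        exact h5 x y h (congrArg Fin.val h6)
      exact_mod_cast h1
    · rw [hloss p hp]
      obtain ⟨K, hK, Hlow⟩ := Pool.Agent.TH477.PA.lower hO hp0
      rw [hDs] at Hlow
      rw [Metric.tendsto_atTop]
      intro ε hε
      obtain ⟨n1, Hup⟩ := Pool.Agent.TH477.PA.upper' k _ r ℓ hO (ε / 2) (by linarith)
      rw [hDs] at Hup
      refine ⟨max (max n1 1) (⌈2 * K / ε⌉₊ + 1), fun n hn => ?_⟩
      have hn1 : n1 ≤ n := ((le_max_left _ _).trans (le_max_left _ _)).trans hn
      have hn2 : 1 ≤ n := ((le_max_right _ _).trans (le_max_left _ _)).trans hn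
      have hn3 : ⌈2 * K / ε⌉₊ + 1 ≤ n := (le_max_right _ _).trans hn
      have hn0 : (0 : ℝ) < n := by exact_mod_cast hn2
      have h1 := Hup n hn1
      have h2 := Hlow n hn2
      rw [maxF_eq] at h1 h2
      have h3 : (0 : ℝ) < maxF r k s n := lt_of_lt_of_le (Real.exp_pos _) h2
      have h4 := Real.log_le_log (Real.exp_pos _) h2
      have h5 := Real.log_le_log h3 h1
      rw [Real.log_exp] at h4 h5
      have h6 : K < ε / 2 * n := by
        have h7 : 2 * K / ε ≤ ⌈2 * K / ε⌉₊ := Nat.le_ceil _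
        have h8 : ((⌈2 * K / ε⌉₊ : ℕ) : ℝ) + 1 ≤ n := by exact_mod_cast hn3
        rw [div_le_iff₀ hε] at h7
        nlinarith
      have h9 : (0 : ℝ) < (n : ℝ) ^ 2 := by positivity
      have h7 : K * n < ε / 2 * (n : ℝ) ^ 2 := by
        rw [pow_two, ← mul_assoc]
        exact mul_lt_mul_of_pos_right h6 hn0
      rw [Real.dist_eq, abs_lt]
      constructor
      · rw [neg_lt_sub_iff_lt_add, ← sub_lt_iff_lt_add', lt_div_iff₀ h9]
        nlinarith
      · rw [sub_lt_iff_lt_add', div_lt_iff₀ h9]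
        nlinarith

end Pool.Agent.Results.MP_86b484_co.GapsAndStructure
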